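import Pool.Agent.H816R2.S35Cyc
import Pool.Agent.H816R2.S35Mul4

/-!
A Steiner system `S(3,5,317)` invariant under `x ↦ x + 1` and `x ↦ 4 * x` modulo `317`.
-/

set_option autoImplicit false

namespace Pool.Agent.TH523.S35

open Pool.Agent.H816R2.S35

def cl317 : List (ℕ × List (List ℕ)) :=
  ([(79, [0, 1, 2, 94, 225]),
    (158, [0, 1, 3, 14, 122]),
    (158, [0, 1, 4, 145, 278]),
    (158, [0, 1, 5, 157, 294]),
    (158, [0, 1, 6, 51, 72]),
    (158, [0, 1, 8, 142, 259]),
    (158, [0, 1, 13, 92, 113]),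
    (158, [0, 1, 18, 211, 289]),
    (158, [0, 1, 21, 127, 202]),
    (158, [0, 1, 33, 164, 271]),
    (158, [0, 1, 55, 160, 244])] : List (ℕ × List ℕ)).map fun c => pointed 317 c.1 c.2

theorem ex317 : ∃ 𝓑 : Set (Finset (Fin (316 + 1))), IsS35 (Fin (316 + 1)) 𝓑 := by
  have h := of_cyc 317 4 158 (by norm_num) (by decide +kernel) cl317 (by decide +kernel)
    (by decide +kernel) (by decide +kernel) (by decide +kernel) [1, 2]
    (by decide +kernel) (by decide +kernel) (by decide +kernel)
  exact transport (ZMod.finEquiv 317).symm.toEquiv h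

end Pool.Agent.TH523.S35
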