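import Pool.Agent.H816R2.S35Cyc
import Pool.Agent.H816R2.S35Mul4

/-!
A Steiner system `S(3,5,326)` invariant under `x ↦ x + 1` and `x ↦ 165 * x` modulo `326`.
-/

set_option autoImplicit false

namespace Pool.Agent.TH523.S35

open Pool.Agent.H816R2.S35

def cl326 : List (ℕ × List (List ℕ)) :=
  ([(54, [0, 58, 104, 163, 164]),
    (81, [0, 2, 123, 164, 205]),
    (162, [0, 3, 72, 121, 164]),
    (162, [0, 4, 22, 164, 180]),
    (162, [0, 5, 164, 219, 239]),
    (162, [0, 10, 129, 164, 210]),
    (162, [0, 85, 164, 173, 305]),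
    (162, [0, 107, 111, 164, 165]),
    (162, [0, 130, 164, 168, 235]),
    (162, [0, 139, 164, 169, 224]),
    (162, [0, 164, 166, 291, 295]),
    (162, [0, 164, 171, 227, 276])] : List (ℕ × List ℕ)).map fun c => pointed 326 c.1 c.2

theorem ex326 : ∃ 𝓑 : Set (Finset (Fin (325 + 1))), IsS35 (Fin (325 + 1)) 𝓑 := by
  have h := of_cyc 326 165 162 (by norm_num) (by decide +kernel) cl326 (by decide +kernel)
    (by decide +kernel) (by decide +kernel) (by decide +kernel) [1, 2, 163]
    (by decide +kernel) (by decide +kernel) (by decide +kernel)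
  exact transport (ZMod.finEquiv 326).symm.toEquiv h

end Pool.Agent.TH523.S35
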