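import Pool.Agent.H816R2.S35Cyc
import Pool.Agent.H816R2.S35Mul4

/-!
A Steiner system `S(3,5,362)` invariant under `x ↦ x + 1` and `x ↦ 183 * x` modulo `362`.
-/

set_option autoImplicit false

namespace Pool.Agent.TH523.S35

open Pool.Agent.H816R2.S35

def cl362 : List (ℕ × List (List ℕ)) :=
  ([(36, [0, 4, 126, 182, 320]),
    (60, [0, 48, 132, 181, 182]),
    (90, [0, 2, 9, 182, 355]),
    (180, [0, 3, 182, 304, 343]),
    (180, [0, 5, 111, 182, 264]),
    (180, [0, 6, 182, 194, 308]),
    (180, [0, 15, 55, 182, 275]),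
    (180, [0, 29, 175, 182, 183]),
    (180, [0, 43, 52, 182, 219]),
    (180, [0, 69, 182, 186, 310]),
    (180, [0, 100, 123, 182, 188]),
    (180, [0, 107, 128, 182, 193]),
    (180, [0, 109, 182, 191, 207]),
    (180, [0, 182, 184, 309, 323])] : List (ℕ × List ℕ)).map fun c => pointed 362 c.1 c.2

theorem ex362 : ∃ 𝓑 : Set (Finset (Fin (361 + 1))), IsS35 (Fin (361 + 1)) 𝓑 := by
  have h := of_cyc 362 183 180 (by norm_num) (by decide +kernel) cl362 (by decide +kernel)
    (by decide +kernel) (by decide +kernel) (by decide +kernel) [1, 2, 181]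
    (by decide +kernel) (by decide +kernel) (by decide +kernel)
  exact transport (ZMod.finEquiv 362).symm.toEquiv h

end Pool.Agent.TH523.S35
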