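import Pool.Agent.H816R2.S35Cyc
import Pool.Agent.H816R2.S35Mul4

/-!
A Steiner system `S(3,5,386)` invariant under `x ↦ x + 1` and `x ↦ 5 * x` modulo `386`.
-/

set_option autoImplicit false

namespace Pool.Agent.TH523.S35

open Pool.Agent.H816R2.S35

def cl386 : List (ℕ × List (List ℕ)) :=
  ([(64, [0, 84, 108, 193, 194]),
    (96, [0, 2, 121, 194, 267]),
    (192, [0, 3, 194, 203, 249]),
    (192, [0, 4, 104, 194, 324]),
    (192, [0, 6, 9, 131, 194]),
    (192, [0, 8, 31, 194, 318]),
    (192, [0, 13, 69, 194, 220]),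
    (192, [0, 55, 194, 205, 299]),
    (192, [0, 56, 194, 199, 329]),
    (192, [0, 67, 102, 194, 198]),
    (192, [0, 76, 137, 194, 209]),
    (192, [0, 80, 194, 196, 239]),
    (192, [0, 100, 194, 215, 345]),
    (192, [0, 156, 194, 195, 201])] : List (ℕ × List ℕ)).map fun c => pointed 386 c.1 c.2

theorem ex386 : ∃ 𝓑 : Set (Finset (Fin (385 + 1))), IsS35 (Fin (385 + 1)) 𝓑 := by
  have h := of_cyc 386 5 192 (by norm_num) (by decide +kernel) cl386 (by decide +kernel)
    (by decide +kernel) (by decide +kernel) (by decide +kernel) [1, 2, 193]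
    (by decide +kernel) (by decide +kernel) (by decide +kernel)
  exact transport (ZMod.finEquiv 386).symm.toEquiv h

end Pool.Agent.TH523.S35
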